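import Pool.Agent.Y101.Ds.Reg

/-!
# Density of the regulators and sums of products
-/

set_option autoImplicit false

open CategoryTheory AlgebraicGeometry MvPolynomial
open Pool.Agent.Y116.UV Pool.Agent.Y101.Ds

namespace Pool.Agent.Results.MP_b2b689_ag.BilinearSums

variable {k : Type} [Field k]

/-- The regulators have dense image for all smooth separated schemes of finite type over `k`. -/
def AllSmooth (T : Reg k) : Prop := ∀ X : Sch k, FT True X → Smooth X.hom → Dense T X

/-- The regulators have dense image for the hypersurfaces `∑ w_i q_i(y, z) = 1` with `c` variables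
`z`. -/
def Sums (T : Reg k) (c : ℕ) : Prop :=
  ∀ (a b : ℕ) (t : Fin a → Option (Fin b) → Option (Fin c) → k), Dense T (sumS t)

/-- The same for the hypersurfaces with coefficients zero and one. -/
def ZeroOneSums (T : Reg k) (c : ℕ) : Prop :=
  ∀ (a b : ℕ) (t : Fin a → Option (Fin b) → Option (Fin c) → k),
    (∀ i j l, t i j l = 0 ∨ t i j l = 1) → Dense T (sumS t)

/-- **Density of the regulators and sums of products.** Let `k` be a number field. All regulators of
all smooth schemes over `k` into absolute Hodge cohomology have dense image if and only if this is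
true for the smooth affine hypersurfaces `∑ w_i q_i(y, z) = 1`, where the `q_i` are polynomials of
degree at most one in the variables `y` and of degree at most one in the variables `z`. Over `ℚ` it is
enough to consider the coefficients `0` and `1`. If it is true for the hypersurfaces with `c` variables
`z` then it is true for all smooth closed subschemes of the affine space of dimension `c`. -/
theorem result (T : Reg k) (hT : IsReg T) :
    (AllSmooth T ↔ ∀ c, Sums T c) ∧
    ((∀ x : k, ∃ d m : ℤ, IsUnit (d : k) ∧ (d : k) * x = m) →
      (AllSmooth T ↔ ∀ c, ZeroOneSums T c)) ∧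
    ∀ c, Sums T c → ∀ I : Ideal (MvPolynomial (Fin c) k),
      Algebra.Smooth k (MvPolynomial (Fin c) k ⧸ I) →
        Dense T (aff k (MvPolynomial (Fin c) k ⧸ I)) := by
  have hP := dsp_dense hT
  refine ⟨?_, fun hk => ?_, fun c h I hI => closed_univ hP h I hI⟩
  · exact (ds_all hP).trans ⟨fun h c a b t => h a b c t, fun h a b c t => h c a b t⟩
  · exact (ds_frac hk hP).trans ⟨fun h c a b t => h a b c t, fun h a b c t => h c a b t⟩

end Pool.Agent.Results.MP_b2b689_ag.BilinearSums
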