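import Pool.Agent.Y94.R.Asm
set_option autoImplicit false

/-!
Density of the regulator `H²(X, ℚ(2)) → H²_H(X, ℚ(2)) = H¹(X, ℂ/ℚ(2))` for the hyperelliptic curves
`X : y² = D(x)` of genus `g` for which the difference of the two points at infinity is torsion, that
is, for which the Pell equation `P² - D Q² = 1` has a solution with nonconstant `P`: the real span
of the regulators of `K_2(X) ⊗ ℚ` has real codimension at most `k ≤ g` in `H¹(X, ℝ(1))` (of real
dimension `2 g`), where `k` is the number of the critical values of `P` that are real and not in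
`[-1, 1]`.  In particular the image is dense if `P` has no real critical values outside of
`[-1, 1]`.
-/

namespace Pool.Agent.Results.MP_b2b689_ag.PellHyperelliptic

open Polynomial

open Pool.Agent.TH826.MK (KQ symb Torus)

open Pool.Agent.TH826.HD (UnramifiedOver)

open Pool.Agent.Y94.R

open scoped Classical in
/-- Let `D` be a squarefree complex polynomial of degree `2 g + 2`, let `P² - D Q² = 1`, where `P`
is not constant, and let `P' = r Q` (the polynomial `r` has degree `g`, and its roots are the
critical points of `P`, except for those with `P = ± 1` that come from the roots of `Q`). Let `k` be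
the number of the roots `β` of `r`, counted with multiplicities, such that `P(β)` is real and
`|P(β)| > 1`. Then `k ≤ g`, the coordinate ring of the affine curve `y² = D(x)` is a domain, and the
curve is smooth.

Let `γ_l = (x_l, y_l)`, `1 ≤ l ≤ m`, be loops in the complex points of the curve with `y_l ≠ 0`,
whose period vectors `(∫ x^j dx / y)_{j < g}` are linearly independent over `ℝ`, and that avoid the
zeros of `r(x)` and the zeros of `P(x) - t` for some `t ∈ (-1, 1)`. Let `n = m - k`. Then there are
`n + 1` complex numbers `b_i` such that all `2 P(b_i)` are sums `ζ + 1/ζ` with roots of unity `ζ`,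
such that the symbols `{P(x) + Q(x) y, (x - b_i) / (x - b_j)}` on the open part
`∏ (x - b_i) ≠ 0` are unramified at all discrete valuations of the function field that are trivial
on `ℂ`, and such that the `n` vectors of the regulators of the symbols
`{P(x) + Q(x) y, (x - b_i) / (x - b_0)}`, `1 ≤ i ≤ n`, on the loops are linearly independent over
`ℝ`. -/
theorem result.{u} (g : ℕ) (D P Q r : ℂ[X]) (hD : Squarefree D) (hdeg : D.natDegree = 2 * g + 2)
    (hPQ : P ^ 2 - D * Q ^ 2 = 1) (hP : 0 < P.natDegree) (hr : derivative P = r * Q) :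
    IsDomain (HRing D) ∧
    (∀ x y : ℂ, y ^ 2 = D.eval x → 2 * y ≠ 0 ∨ (derivative D).eval x ≠ 0) ∧
    Multiset.card (r.roots.filter fun β => (P.eval β).im = 0 ∧ 1 < |(P.eval β).re|) ≤ g ∧
    ∀ (m n : ℕ),
      n + Multiset.card (r.roots.filter fun β => (P.eval β).im = 0 ∧ 1 < |(P.eval β).re|) = m →
      ∀ γ : Fin m → Lp D,
        (LinearIndependent ℝ fun (l : Fin m) (j : Fin g) =>
          ∫ t in (0 : ℝ)..1, (γ l).x t ^ (j : ℕ) * deriv (γ l).x t / (γ l).y t) →
        (∀ l t, r.eval ((γ l).x t) ≠ 0) →
        (∃ τ : ℝ, |τ| < 1 ∧ ∀ l t, P.eval ((γ l).x t) ≠ τ) →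
        ∃ b : Fin (n + 1) → ℂ,
          (∀ i, ∃ (ζ : ℂ) (N : ℕ), N ≠ 0 ∧ ζ ^ N = 1 ∧ 2 * P.eval (b i) = ζ + ζ⁻¹) ∧
          (∀ (L : Type u) [Field L] [Algebra (HRing D) L] [IsFractionRing (HRing D) L],
            ∃ f : HOpen D b →+* L,
              (∀ a : HRing D, f (toH D b a) = algebraMap (HRing D) L a) ∧
              ∀ i j, KQ.map 2 f (symb (hent b hPQ i j)) ∈
                UnramifiedOver (f.comp (hcst D b)) 2) ∧
          ∃ Γ : Fin m → Torus (HOpen D b) 1,
            (∀ l θ, (∀ c : ℂ, (Γ l).e θ (hcst D b c) = c) ∧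
              (Γ l).e θ (toH D b (hpol D X)) = (γ l).x (θ 0) ∧
              (Γ l).e θ (toH D b (hy D)) = (γ l).y (θ 0)) ∧
            LinearIndependent ℝ fun (i : Fin n) (l : Fin m) =>
              (Γ l).reg (symb (hent b hPQ i.succ 0)) := by
  have h : Pell D P Q r := ⟨hPQ, hr, hP⟩
  have hrg := h.natDegree_r hdeg
  refine ⟨isDomain_HRing hD (by omega), ?_, ?_, ?_⟩
  · intro x y hxy
    by_contra hcon
    push Not at hcon
    obtain ⟨h1, h2⟩ := hcon
    have h3 : y = 0 := by simpa using h1
    rw [h3, zero_pow two_ne_zero] at hxy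
    obtain ⟨D1, hD1⟩ := dvd_iff_isRoot.2 (show D.IsRoot x from hxy.symm)
    have h4 : (X - C x) * (X - C x) ∣ D := by
      rw [hD1]
      refine mul_dvd_mul_left _ ?_
      rw [dvd_iff_isRoot]
      rw [hD1, derivative_mul] at h2
      simpa using h2
    exact Polynomial.not_isUnit_X_sub_C x (hD _ h4)
  · refine (Multiset.card_le_card (Multiset.filter_le _ _)).trans ?_
    rw [← hrg]
    exact card_roots' r
  · intro m n hn γ hind hoffr ⟨τ, hτ, hoffτ⟩
    have hid : ∀ p : ℂ[X], p.map (RingHom.id ℂ) = p := fun p => Polynomial.map_id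
    let _ : DecidablePred (Bad P) := fun β =>
      (inferInstance : Decidable ((P.eval β).im = 0 ∧ 1 < |(P.eval β).re|))
    obtain ⟨b, hb1, hb2, hb3⟩ := core γ hD h
      (fun l β hβ t ht => hoffr l t (by rw [sub_eq_zero.1 ht, hβ]))
      ⟨τ, hτ, fun b hb l t ht => hoffτ l t (by rw [sub_eq_zero.1 ht, hb])⟩
      (fun c hc => by
        rw [hrg]
        exact periods γ hind c hc) (n := n) hn
    refine ⟨b, hb2, ?_, ?_⟩
    · intro L _ _ _
      have hinj : Function.Injective (algebraMap (HRing D) L) := IsFractionRing.injective _ _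
      have hne : algebraMap (HRing D) L (hDel D b) ≠ 0 := by
        rw [Ne, map_eq_zero_iff _ hinj]
        exact hDel_ne_zero b
      exact ⟨liftH (algebraMap (HRing D) L) hne, fun a => liftH_toH _ _ _,
        fun i j => hsymb_unramifiedOver hPQ b _ i j hb2⟩
    · have hp : Pell (D.map (RingHom.id ℂ)) (P.map (RingHom.id ℂ)) (Q.map (RingHom.id ℂ))
          (r.map (RingHom.id ℂ)) := by
        rw [hid, hid, hid, hid]
        exact h
      exact exists_tori (RingHom.id ℂ) hPQ hp (fun l =>
        ⟨(γ l).x, (γ l).y, (γ l).contDiff_x, (γ l).contDiff_y, (γ l).periodic_x,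
          (γ l).periodic_y, by rw [hid]; exact (γ l).eq, (γ l).ne⟩) b
        (fun k l => hb1 k l) (by
          unfold Lp.rho Lp.z at hb3 ⊢
          simp only [hid]
          exact hb3)

end Pool.Agent.Results.MP_b2b689_ag.PellHyperelliptic
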